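import Pool.Agent.SGP.Stmts

/-!
# Squad SGP, row PW1
-/

noncomputable section

namespace Pool.Agent.SGP.H17

open Pool.Agent.SGE

theorem pw1 : Pw1Stmt := by
  classical
  intro n G B h
  let m : Fin n → ℕ := fun v => Nat.find (h.ex v)
  have hm : ∀ v, v ∈ B (m v) := fun v => Nat.find_spec (h.ex v)
  have hmin : ∀ v t, v ∈ B t → m v ≤ t := fun v t ht => Nat.find_min' (h.ex v) ht
  have hmono : Monotone (m ∘ Tuple.sort m) := Tuple.monotone_sort m
  refine ⟨Tuple.sort m, fun j => ?_⟩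
  set σ := Tuple.sort m with hσ
  set S : Set (Fin n) := {i : Fin n | i < j ∧ ∃ l, j ≤ l ∧ G.Adj (σ i) (σ l)} with hS
  have hsub : insert (σ j) (σ '' S) ⊆ (↑(B (m (σ j))) : Set (Fin n)) := by
    intro x hx
    rcases hx with rfl | ⟨i, ⟨hij, l, hjl, hadj⟩, rfl⟩
    · exact hm _
    · obtain ⟨t, h1, h2⟩ := h.edge _ _ hadj
      have e1 : m (σ i) ≤ m (σ j) := hmono hij.le
      have e2 : m (σ j) ≤ m (σ l) := hmono hjl
      exact h.conv (σ i) (m (σ i)) (m (σ j)) t e1 (e2.trans (hmin _ _ h2)) (hm _) h1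
  have hnot : σ j ∉ σ '' S := by
    rintro ⟨i, hi, hij⟩
    have : i = j := σ.injective hij
    exact absurd hi.1 (by rw [this]; exact lt_irrefl j)
  have hfin : (σ '' S).Finite := Set.toFinite _
  have hcard : (insert (σ j) (σ '' S)).ncard ≤ 3 := by
    refine (Set.ncard_le_ncard hsub (Finset.finite_toSet _)).trans ?_
    rw [Set.ncard_coe_finset]
    exact h.card _
  rw [Set.ncard_insert_of_notMem hnot hfin, Set.ncard_image_of_injective _ σ.injective] at hcard
  omega

end Pool.Agent.SGP.H17
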