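import Pool.Agent.SGP.Stmts

/-!
# Squad SGP, row RMV: removal of a contour vertex without chords, explicit form

Adapted from Pool/Agent/Helper60_SGE/Rem.lean (helper60).
-/

open scoped BigOperators

noncomputable section

namespace Pool.Agent.SGP.H17

open Pool.Agent.SGE

variable {V : Type}

theorem tri_of_forall {R : V → V → V → Prop} : ∀ (L : List V),
    (∀ A x w y B, L = A ++ x :: w :: y :: B → R x w y) → Tri R L
  | [], _ => trivial
  | [_], _ => trivial
  | [_, _], _ => trivial
  | x :: w :: y :: L, h => ⟨h [] x w y L rfl, tri_of_forall (w :: y :: L)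
      (fun A x' w' y' B e => h (x :: A) x' w' y' B (by rw [e]; rfl))⟩

theorem tri_tail {R : V → V → V → Prop} {e : V} : ∀ {L : List V}, Tri R (e :: L) → Tri R L
  | [], _ => trivial
  | [_], _ => trivial
  | _ :: _ :: _, h => h.2

theorem tri_forall {R : V → V → V → Prop} {x w y : V} {B : List V} :
    ∀ (A : List V), Tri R (A ++ x :: w :: y :: B) → R x w y
  | [], h => h.1
  | _ :: A, h => tri_forall A (tri_tail h)

theorem tri_join {R : V → V → V → Prop} {x y : V} {L2 : List V} (h2 : Tri R (x :: y :: L2)) :
    ∀ (L1 : List V), Tri R (L1 ++ [x, y]) → Tri R (L1 ++ x :: y :: L2)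
  | [], _ => h2
  | [_], h => ⟨h.1, h2⟩
  | [_, f], h => ⟨h.1, tri_join h2 [f] h.2⟩
  | _ :: f :: g :: L, h => ⟨h.1, tri_join h2 (f :: g :: L) h.2⟩

theorem mid_mem {b p x w y : V} {P A B : List V} (h : b :: (P ++ [p]) = A ++ x :: w :: y :: B) :
    w ∈ P := by
  obtain ⟨A', h'⟩ : ∃ A', P ++ [p] = A' ++ w :: y :: B := by
    cases A with
    | nil => exact ⟨[], by simpa using (List.cons.inj h).2⟩
    | cons c A => exact ⟨A ++ [x], by simpa using (List.cons.inj h).2⟩
  have h1 := congrArg List.dropLast h'
  rw [List.dropLast_concat, List.dropLast_append_of_ne_nil (by simp), List.dropLast_cons_cons] at h1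
  rw [h1]
  simp

theorem chain_pair {R : V → V → Prop} {x y : V} {B : List V} :
    ∀ (A : List V), (A ++ x :: y :: B).IsChain R → R x y
  | [], h => (List.isChain_cons_cons.1 h).1
  | _ :: A, h => chain_pair A h.tail

theorem chain_mem {R : V → V → Prop} {v : V} {l : List V} (h : l.IsChain R) (hv : v ∉ l) :
    l.IsChain (fun s t => R s t ∧ s ≠ v ∧ t ≠ v) := by
  induction l with
  | nil => exact List.IsChain.nil
  | cons s l ih =>
    cases l with
    | nil => exact List.IsChain.singleton s
    | cons t l =>
      rw [List.isChain_cons_cons] at h ⊢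
      refine ⟨⟨h.1, ?_, ?_⟩, ih h.2 (fun h' => hv (List.mem_cons_of_mem _ h'))⟩
      · rintro rfl
        exact hv (by simp)
      · rintro rfl
        exact hv (by simp)

theorem chain_rF {F : V → V → V → Prop} {v w : V} {l : List V} (hw : w ≠ v) (h : l.IsChain (F w))
    (hv : v ∉ l) : l.IsChain (rF F v w) :=
  (chain_mem h hv).imp (fun _ _ h => ⟨h.1, hw, h.2.1, h.2.2⟩)

theorem fan_mono {E : V → V → Prop} {F : V → V → V → Prop} {v x w y : V} (hw : w ≠ v)
    (hn : ¬ E w v) (h : Fan E F x w y) : Fan (rE E v) (rF F v) x w y := by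
  obtain ⟨l, h1, h2, h3, h4, h5, h6⟩ := h
  have hv : v ∉ l := fun h' => hn ((h5 v).2 h')
  refine ⟨l, h1, h2, chain_rF hw h3 hv, h4, fun z => ?_, fun z hz => h6 z hz.1⟩
  constructor
  · exact fun hz => (h5 z).1 hz.1
  · intro hz
    refine ⟨(h5 z).2 hz, hw, ?_⟩
    rintro rfl
    exact hv hz

theorem con_of_chain {F : V → V → V → Prop} {v q x y : V} {l : List V}
    (hfn : ∀ u v w w', F u v w → F u v w' → w = w') (hl : l.IsChain (F v))
    (hq : l.getLast? = some q) (h6 : ∀ z, ¬ F v q z) (hx : x ∈ l) (hF : F v x y) : Con l x y := by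
  obtain ⟨A, B, rfl⟩ := List.append_of_mem hx
  cases B with
  | nil =>
    rw [List.getLast?_concat] at hq
    have h : x = q := by simpa using hq
    subst h
    exact absurd hF (h6 y)
  | cons y' B =>
    have h1 : F v x y' := chain_pair A hl
    have h2 : y' = y := hfn _ _ _ _ h1 hF
    subst h2
    exact ⟨A, B, rfl⟩

theorem rmv : RmvStmt := by
  intro V _ a b P Q p v q E F N hv
  classical
  have nd := N.nd
  have nd' : (P ++ p :: v :: q :: Q).Nodup := nd
  rw [List.nodup_append] at nd
  obtain ⟨ndP, nd1, nd2⟩ := nd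
  rw [List.nodup_cons] at nd1
  obtain ⟨np, nd1⟩ := nd1
  rw [List.nodup_cons] at nd1
  obtain ⟨nv, nd1⟩ := nd1
  rw [List.nodup_cons] at nd1
  obtain ⟨nq, ndQ⟩ := nd1
  have hpv : p ≠ v := fun h => np (by simp [h])
  have hpq : p ≠ q := fun h => np (by simp [h])
  have hvq : v ≠ q := fun h => nv (by simp [h])
  have hvP : v ∉ P := fun h => nd2 v h v (by simp) rfl
  have hvQ : v ∉ Q := fun h => nv (by simp [h])
  have hav : a ≠ v := by
    have h := N.hd
    cases P with
    | nil =>
      have h' : p = a := by simpa using h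
      rw [← h']
      exact hpv
    | cons c P =>
      have h' : c = a := by simpa using h
      rw [← h']
      rintro rfl
      exact hvP (by simp)
  have hbv : b ≠ v := by
    have h := N.ls
    have h1 : (P ++ p :: v :: q :: Q).getLast? = (q :: Q).getLast? := by
      rw [show P ++ p :: v :: q :: Q = (P ++ [p, v]) ++ q :: Q by simp,
        List.getLast?_append_of_ne_nil _ (by simp)]
    rw [h1] at h
    have h2 : b ∈ q :: Q := List.mem_of_getLast? h
    rintro rfl
    exact nv h2
  obtain ⟨L1, e, hL1⟩ : ∃ L1 e, b :: P = L1 ++ [e] :=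
    ⟨(b :: P).dropLast, (b :: P).getLast (by simp), (List.dropLast_append_getLast _).symm⟩
  obtain ⟨f, L2, hL2⟩ : ∃ f L2, Q ++ [a] = f :: L2 := by
    cases Q with
    | nil => exact ⟨a, [], rfl⟩
    | cons f Q => exact ⟨f, Q ++ [a], rfl⟩
  have hev : e ≠ v := by
    have h : e ∈ b :: P := by
      rw [hL1]
      simp
    rcases List.mem_cons.1 h with h | h
    · rw [h]
      exact hbv
    · rintro rfl
      exact hvP h
  have hfv : f ≠ v := by
    have h : f ∈ Q ++ [a] := by
      rw [hL2]
      simp
    rcases List.mem_append.1 h with h | h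
    · rintro rfl
      exact hvQ h
    · rw [List.mem_singleton.1 h]
      exact hav
  have hbd := N.bd
  have hall : b :: ((P ++ p :: v :: q :: Q) ++ [a]) = L1 ++ e :: p :: v :: q :: f :: L2 := by
    have h : b :: ((P ++ p :: v :: q :: Q) ++ [a]) = (b :: P) ++ p :: v :: q :: (Q ++ [a]) := by
      simp
    rw [h, hL1, hL2]
    simp
  rw [hall] at hbd
  have fanP : Fan E F e p v := tri_forall L1 hbd
  have fanV : Fan E F p v q :=
    tri_forall (L1 ++ [e]) (by simpa using hbd)
  have fanQ : Fan E F v q f :=
    tri_forall (L1 ++ [e, p]) (by simpa using hbd)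
  -- the list of v
  obtain ⟨lv, v1, v2, v3, v4, v5, v6⟩ := fanV
  obtain ⟨mid, rfl⟩ : ∃ mid, lv = p :: (mid ++ [q]) := by
    cases lv with
    | nil => simp at v1
    | cons c lv =>
      have h : c = p := by simpa using v1
      subst h
      cases lv using List.reverseRecOn with
      | nil =>
        exfalso
        have h' : c = q := by simpa using v2
        exact hpq h'
      | append_singleton mid d _ =>
        have h' : d = q := by
          rw [← List.cons_append, List.getLast?_concat] at v2
          simpa using v2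
        subst h'
        exact ⟨mid, rfl⟩
  have hirr : ∀ x, E v x → x ≠ v := by
    rintro x hx rfl
    exact N.irr x hx
  have v4' := v4
  rw [List.nodup_cons, List.nodup_append] at v4'
  obtain ⟨w1, w2, -, w4⟩ := v4'
  have midC : ∀ x ∈ mid, x ∉ P ++ p :: v :: q :: Q := by
    intro x hx hC
    rcases hv x hC ((v5 x).2 (by simp [hx])) with h | h
    · subst h
      exact w1 (by simp [hx])
    · subst h
      exact w4 x hx x (by simp) rfl
  obtain ⟨m1, M2, hM⟩ : ∃ m1 M2, mid ++ [q] = m1 :: M2 := by
    cases mid with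
    | nil => exact ⟨q, [], rfl⟩
    | cons c mid => exact ⟨c, mid ++ [q], rfl⟩
  obtain ⟨M3, ml, hM'⟩ : ∃ M3 ml, p :: mid = M3 ++ [ml] :=
    ⟨(p :: mid).dropLast, (p :: mid).getLast (by simp), (List.dropLast_append_getLast _).symm⟩
  have Fvpm : F v p m1 := by
    have h := v3
    rw [hM] at h
    exact (List.isChain_cons_cons.1 h).1
  have hM2 : p :: (mid ++ [q]) = M3 ++ [ml, q] := by
    have h : p :: (mid ++ [q]) = (p :: mid) ++ [q] := rfl
    rw [h, hM']
    simp
  have Fvmq : F v ml q := by
    have h := v3
    rw [hM2] at h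
    exact chain_pair M3 h
  have fanP' : Fan (rE E v) (rF F v) e p m1 := by
    obtain ⟨l, h1, h2, h3, h4, h5, h6⟩ := fanP
    obtain ⟨l0, rfl⟩ : ∃ l0, l = l0 ++ [v] := by
      cases l using List.reverseRecOn with
      | nil => simp at h2
      | append_singleton l0 d _ =>
        rw [List.getLast?_concat] at h2
        have h' : d = v := by simpa using h2
        exact ⟨l0, by rw [h']⟩
    cases l0 using List.reverseRecOn with
    | nil =>
      exfalso
      have h' : v = e := by simpa using h1
      exact hev h'.symm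
    | append_singleton l1 s _ =>
      have hs : F p s v := chain_pair (B := []) l1 (by simpa using h3)
      have hs' : s = m1 := N.fn _ _ _ _ (N.rot _ _ _ (N.rot _ _ _ hs)) Fvpm
      subst hs'
      rw [List.nodup_append] at h4
      have hvl : v ∉ l1 ++ [s] := fun h => h4.2.2 v h v (by simp) rfl
      refine ⟨l1 ++ [s], ?_, List.getLast?_concat, chain_rF hpv h3.left_of_append hvl, h4.1, ?_, ?_⟩
      · cases l1 with
        | nil => simpa using h1
        | cons c l1 => simpa using h1
      · intro z
        constructor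
        · intro hz
          rcases List.mem_append.1 ((h5 z).1 hz.1) with h | h
          · exact h
          · exact absurd (List.mem_singleton.1 h) hz.2.2
        · intro hz
          refine ⟨(h5 z).2 (List.mem_append_left _ hz), hpv, ?_⟩
          rintro rfl
          exact hvl hz
      · intro z hz
        exact hz.2.2.2 (N.fn _ _ _ _ hz.1 (N.rot _ _ _ Fvpm))
  have fanQ' : Fan (rE E v) (rF F v) ml q f := by
    obtain ⟨l, h1, h2, h3, h4, h5, h6⟩ := fanQ
    obtain ⟨l0, rfl⟩ : ∃ l0, l = v :: l0 := by
      cases l with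
      | nil => simp at h1
      | cons d l0 =>
        have h' : d = v := by simpa using h1
        exact ⟨l0, by rw [h']⟩
    cases l0 with
    | nil =>
      exfalso
      have h' : v = f := by simpa using h2
      exact hfv h'.symm
    | cons s l1 =>
      have hs : F q v s := (List.isChain_cons_cons.1 h3).1
      have hs' : s = ml := N.fn _ _ _ _ hs (N.rot _ _ _ (N.rot _ _ _ Fvmq))
      subst hs'
      rw [List.nodup_cons] at h4
      refine ⟨s :: l1, rfl, ?_, chain_rF (Ne.symm hvq) h3.tail h4.1, h4.2, ?_, ?_⟩
      · rw [← h2]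
        simp [List.getLast?_cons_cons]
      · intro z
        constructor
        · intro hz
          rcases List.mem_cons.1 ((h5 z).1 hz.1) with h | h
          · exact absurd h hz.2.2
          · exact h
        · intro hz
          refine ⟨(h5 z).2 (List.mem_cons_of_mem _ hz), Ne.symm hvq, ?_⟩
          rintro rfl
          exact h4.1 hz
      · intro z hz
        exact h6 z hz.1
  have fanM : ∀ A x w y B, p :: (mid ++ [q]) = A ++ x :: w :: y :: B →
      Fan (rE E v) (rF F v) x w y := by
    intro A x w y B h
    have hw : w ∈ mid := mid_mem h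
    have hEv : E v w := (v5 w).2 (by simp [hw])
    have hwv : w ≠ v := hirr w hEv
    have hc := v3
    rw [h] at hc
    have Fx : F v x w := chain_pair A hc
    have Fy : F v w y := chain_pair (A ++ [x]) (by simpa using hc)
    obtain ⟨l, c1, c2, c3⟩ := N.int w v (midC w hw) (N.sym _ _ hEv)
    rw [List.nodup_cons] at c2
    have c1' : (l ++ [v]).IsChain (F w) := c1.tail
    refine ⟨l, ?_, ?_, chain_rF hwv c1'.left_of_append c2.1, c2.2, ?_, ?_⟩
    · cases l with
      | nil =>
        exfalso
        have h1 : F w v v := (List.isChain_cons_cons.1 c1).1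
        exact N.irr v (N.fe _ _ _ (N.rot _ _ _ h1))
      | cons s l0 =>
        have h1 : F w v s := (List.isChain_cons_cons.1 c1).1
        have h2 : s = x := N.fn _ _ _ _ h1 (N.rot _ _ _ (N.rot _ _ _ Fx))
        rw [h2]
        rfl
    · cases l using List.reverseRecOn with
      | nil =>
        exfalso
        have h1 : F w v v := (List.isChain_cons_cons.1 c1).1
        exact N.irr v (N.fe _ _ _ (N.rot _ _ _ h1))
      | append_singleton l0 t _ =>
        have h1 : F w t v := chain_pair (B := []) (v :: l0) (by simpa using c1)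
        have h2 : t = y := N.fn _ _ _ _ (N.rot _ _ _ (N.rot _ _ _ h1)) Fy
        rw [h2]
        exact List.getLast?_concat
    · intro z
      constructor
      · intro hz
        rcases List.mem_cons.1 ((c3 z).1 hz.1) with h | h
        · exact absurd h hz.2.2
        · exact h
      · intro hz
        refine ⟨(c3 z).2 (List.mem_cons_of_mem _ hz), hwv, ?_⟩
        rintro rfl
        exact c2.1 hz
    · intro z hz
      exact hz.2.2.2 (N.fn _ _ _ _ hz.1 (N.rot _ _ _ Fy))
  have hVC : ∀ w, E v w → w ∈ P ++ p :: (mid ++ q :: Q) := by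
    intro w hw
    have h := (v5 w).1 hw
    simp only [List.mem_cons, List.mem_append, List.not_mem_nil, or_false] at h ⊢
    tauto
  have hold : ∀ w ∈ P ++ p :: v :: q :: Q, w ≠ p → w ≠ q → ¬ E w v := by
    intro w hw h1 h2 h3
    rcases hv w hw (N.sym _ _ h3) with h | h
    · exact h1 h
    · exact h2 h
  have triA : Tri (Fan (rE E v) (rF F v)) (L1 ++ [e, p]) := by
    have hL : L1 ++ [e, p] = b :: (P ++ [p]) := by
      have h : b :: (P ++ [p]) = (b :: P) ++ [p] := rfl
      rw [h, hL1]
      simp
    rw [hL]
    apply tri_of_forall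
    intro A x w y B h
    have hw : w ∈ P := mid_mem h
    have hw1 : w ≠ p := fun h' => nd2 w hw p (by simp) h'
    have hw2 : w ≠ q := fun h' => nd2 w hw q (by simp) h'
    have hw3 : w ≠ v := fun h' => nd2 w hw v (by simp) h'
    refine fan_mono hw3 (hold w (by simp [hw]) hw1 hw2) ?_
    refine tri_forall (B := B ++ v :: q :: f :: L2) A ?_
    have h' : A ++ x :: w :: y :: (B ++ v :: q :: f :: L2) =
        (A ++ x :: w :: y :: B) ++ v :: q :: f :: L2 := by simp
    rw [h', ← h, ← hL]
    simpa using hbd
  have triB : Tri (Fan (rE E v) (rF F v)) (q :: f :: L2) := by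
    rw [← hL2]
    apply tri_of_forall
    intro A x w y B h
    have hw : w ∈ Q := mid_mem h
    have hw1 : w ≠ p := fun h' => np (by simp [← h', hw])
    have hw2 : w ≠ q := fun h' => nq (by simp [← h', hw])
    have hw3 : w ≠ v := fun h' => nv (by simp [← h', hw])
    refine fan_mono hw3 (hold w (by simp [hw]) hw1 hw2) ?_
    refine tri_forall (B := B) (L1 ++ e :: p :: v :: A) ?_
    have h' : (L1 ++ e :: p :: v :: A) ++ x :: w :: y :: B =
        L1 ++ e :: p :: v :: (A ++ x :: w :: y :: B) := by simp
    rw [h', ← h, hL2]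
    exact hbd
  have triM : Tri (Fan (rE E v) (rF F v)) (p :: m1 :: (M2 ++ [f])) := by
    have h : p :: m1 :: (M2 ++ [f]) = M3 ++ ml :: q :: [f] := by
      have h' : p :: m1 :: (M2 ++ [f]) = p :: (m1 :: M2 ++ [f]) := rfl
      rw [h', ← hM]
      have h'' : p :: (mid ++ [q] ++ [f]) = p :: (mid ++ [q]) ++ [f] := rfl
      rw [h'', hM2]
      simp
    rw [h]
    have hq : Tri (Fan (rE E v) (rF F v)) (ml :: q :: [f]) := ⟨fanQ', trivial⟩
    refine tri_join hq M3 ?_
    rw [← hM2]
    exact tri_of_forall _ fanM
  have hnew : b :: ((P ++ p :: (mid ++ q :: Q)) ++ [a]) =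
      L1 ++ e :: p :: (mid ++ q :: f :: L2) := by
    have h : b :: ((P ++ p :: (mid ++ q :: Q)) ++ [a]) =
        (b :: P) ++ p :: (mid ++ q :: (Q ++ [a])) := by simp
    rw [h, hL1, hL2]
    simp
  have triN : Tri (Fan (rE E v) (rF F v)) (b :: ((P ++ p :: (mid ++ q :: Q)) ++ [a])) := by
    rw [hnew]
    refine tri_join ?_ L1 triA
    have h : e :: p :: (mid ++ q :: f :: L2) = (e :: p :: mid) ++ q :: f :: L2 := rfl
    rw [h]
    refine tri_join triB _ ?_
    have h' : (e :: p :: mid) ++ [q, f] = e :: p :: m1 :: (M2 ++ [f]) := by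
      have h'' : (e :: p :: mid) ++ [q, f] = e :: p :: (mid ++ [q] ++ [f]) := by simp
      rw [h'', hM]
      rfl
    rw [h']
    exact ⟨fanP', triM⟩
  have hR : ∀ x y, E v x → E v y → Relation.ReflTransGen (rE E v) x y := by
    have key : ∀ (l : List V) (x : V), (x :: l).IsChain (F v) → x ≠ v → v ∉ l →
        ∀ y ∈ x :: l, Relation.ReflTransGen (rE E v) x y ∧
          Relation.ReflTransGen (rE E v) y x := by
      intro l
      induction l with
      | nil =>
        intro x _ _ _ y hy
        rw [List.mem_singleton.1 hy]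
        exact ⟨Relation.ReflTransGen.refl, Relation.ReflTransGen.refl⟩
      | cons d l ih =>
        intro x hc hx hvl y hy
        have hd : d ≠ v := by
          rintro rfl
          exact hvl (by simp)
        have hF : F v x d := (List.isChain_cons_cons.1 hc).1
        have hE : E x d := N.fe _ _ _ (N.rot _ _ _ hF)
        rcases List.mem_cons.1 hy with h | h
        · rw [h]
          exact ⟨Relation.ReflTransGen.refl, Relation.ReflTransGen.refl⟩
        · obtain ⟨k1, k2⟩ := ih d hc.tail hd (fun h' => hvl (List.mem_cons_of_mem _ h')) y h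
          exact ⟨Relation.ReflTransGen.head ⟨hE, hx, hd⟩ k1,
            Relation.ReflTransGen.tail k2 ⟨N.sym _ _ hE, hd, hx⟩⟩
    have hvl : v ∉ mid ++ [q] := fun h => hirr v ((v5 v).2 (List.mem_cons_of_mem _ h)) rfl
    intro x y hx hy
    exact (key _ p v3 hpv hvl x ((v5 x).1 hx)).2.trans (key _ p v3 hpv hvl y ((v5 y).1 hy)).1
  have hcon : ∀ w, Relation.ReflTransGen E a w →
      (w ≠ v → Relation.ReflTransGen (rE E v) a w) ∧
      (w = v → ∀ x, E v x → Relation.ReflTransGen (rE E v) a x) := by
    intro w hw
    induction hw with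
    | refl => exact ⟨fun _ => Relation.ReflTransGen.refl, fun h => absurd h hav⟩
    | @tail w w' _ hs ih =>
      constructor
      · intro hw'
        by_cases h : w = v
        · subst h
          exact ih.2 rfl w' hs
        · exact (ih.1 h).tail ⟨hs, h, hw'⟩
      · rintro rfl x hx
        have hw1 : w ≠ w' := by
          rintro rfl
          exact N.irr _ hs
        exact (ih.1 hw1).trans (hR w x (N.sym _ _ hs) hx)
  refine ⟨mid, ?_, v5, v3.imp (fun x y h => N.rot _ _ _ h), fun x y h => ?_⟩
  swap
  · have h1 : F v x y := N.rot _ _ _ (N.rot _ _ _ h)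
    exact con_of_chain N.fn v3 v2 v6 ((v5 x).1 (N.fe _ _ _ h1)) h1
  have nmid : v ∉ mid := fun h => hirr v ((v5 v).2 (by simp [h])) rfl
  constructor
  · exact N.ab
  · -- nodup
    rw [List.nodup_append, List.nodup_cons, List.nodup_append]
    have hqQ : (q :: Q).Nodup := by
      rw [List.nodup_cons]
      exact ⟨nq, ndQ⟩
    refine ⟨ndP, ⟨?_, w2, hqQ, ?_⟩, ?_⟩
    · intro h
      rcases List.mem_append.1 h with h | h
      · exact w1 (by simp [h])
      · exact np (List.mem_cons_of_mem _ h)
    · intro x hx y hy hxy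
      subst hxy
      exact midC x hx (by
        rw [List.mem_append]
        exact Or.inr (List.mem_cons_of_mem _ (List.mem_cons_of_mem _ hy)))
    · intro x hx y hy hxy
      subst hxy
      rcases List.mem_cons.1 hy with h | h
      · exact nd2 x hx p (by simp) h
      · rcases List.mem_append.1 h with h | h
        · exact midC x h (by simp [hx])
        · exact nd2 x hx x (by
            exact List.mem_cons_of_mem _ (List.mem_cons_of_mem _ h)) rfl
  · rw [← N.hd]
    cases P with
    | nil => rfl
    | cons c P => rfl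
  · rw [← N.ls]
    have h1 : P ++ p :: v :: q :: Q = (P ++ [p, v]) ++ q :: Q := by simp
    have h2 : P ++ p :: (mid ++ q :: Q) = (P ++ p :: mid) ++ q :: Q := by simp
    rw [h1, h2, List.getLast?_append_of_ne_nil _ (by simp),
      List.getLast?_append_of_ne_nil _ (by simp)]
  · exact fun u w h => ⟨N.sym _ _ h.1, h.2.2, h.2.1⟩
  · exact fun u h => N.irr u h.1
  · exact fun u w t h => ⟨N.rot _ _ _ h.1, h.2.2.1, h.2.2.2, h.2.1⟩
  · exact fun u w t t' h h' => N.fn _ _ _ _ h.1 h'.1
  · exact fun u w t h => ⟨N.fe _ _ _ h.1, h.2.1, h.2.2.1⟩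
  · exact triN
  · -- interior vertices
    intro z x hz hzx
    have hzC : z ∉ P ++ p :: v :: q :: Q := by
      intro h
      simp only [List.mem_append, List.mem_cons] at h
      apply hz
      simp only [List.mem_append, List.mem_cons]
      rcases h with h | h | h | h | h
      · exact Or.inl h
      · exact Or.inr (Or.inl h)
      · exact absurd h hzx.2.1
      · exact Or.inr (Or.inr (Or.inr (Or.inl h)))
      · exact Or.inr (Or.inr (Or.inr (Or.inr h)))
    have hzv : ¬ E z v := fun h => hz (hVC z (N.sym _ _ h))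
    obtain ⟨l, c1, c2, c3⟩ := N.int z x hzC hzx.1
    have hvl : v ∉ x :: l := fun h => hzv ((c3 v).2 h)
    have hvl' : v ∉ x :: (l ++ [x]) := by
      intro h
      apply hvl
      simp only [List.mem_append, List.mem_cons, List.not_mem_nil, or_false] at h ⊢
      tauto
    refine ⟨l, chain_rF hzx.2.1 c1 hvl', c2, fun y => ?_⟩
    constructor
    · exact fun h => (c3 y).1 h.1
    · intro h
      refine ⟨(c3 y).2 h, hzx.2.1, ?_⟩
      rintro rfl
      exact hvl h
  · -- homology
    intro Z Zs Zu Z0
    obtain ⟨A, A1, A2, A3⟩ := N.hom Z Zs (fun u w h => (Zu u w h).1) Z0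
    have Zv : ∀ x, Z v x = 0 := by
      intro x
      by_contra h
      exact (Zu v x h).2.1 rfl
    have Asym : ∀ x, A v x = A x v := by
      intro x
      have h := A3 v x
      rw [Zv] at h
      exact (CharTwo.add_eq_zero.1 h.symm)
    have key : ∀ (l : List V) (x : V), (x :: l).IsChain (F v) → A v x = 0 →
        ∀ y ∈ x :: l, A v y = 0 := by
      intro l
      induction l with
      | nil =>
        intro x _ h y hy
        rw [List.mem_singleton.1 hy]
        exact h
      | cons d l ih =>
        intro x hc h y hy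
        have hF : F v x d := (List.isChain_cons_cons.1 hc).1
        rcases List.mem_cons.1 hy with h' | h'
        · rw [h']
          exact h
        · refine ih d hc.tail ?_ y h'
          rw [Asym, ← A1 _ _ _ (N.rot _ _ _ hF), ← A1 _ _ _ hF, h]
    have hAp : A v p = 0 := by
      rw [Asym]
      apply A2
      obtain ⟨l, h1, h2, h3, h4, h5, h6⟩ := fanP
      exact h6
    have hA : ∀ x, A v x = 0 := by
      intro x
      by_cases h : E v x
      · exact key _ p v3 hAp x ((v5 x).1 h)
      · exact A2 _ _ (fun w hw => h (N.fe _ _ _ hw))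
    refine ⟨A, fun u w t h => A1 _ _ _ h.1, fun u w h => ?_, A3⟩
    by_cases hf : ∀ t, ¬ F u w t
    · exact A2 _ _ hf
    · push Not at hf
      obtain ⟨t, ht⟩ := hf
      by_cases hu : u = v
      · rw [hu]
        exact hA w
      · by_cases hw : w = v
        · rw [hw, ← Asym]
          exact hA u
        · by_cases htv : t = v
          · rw [A1 _ _ _ ht, htv, ← Asym]
            exact hA w
          · exact absurd ⟨ht, hu, hw, htv⟩ (h t)
  · intro u w h
    exact (hcon u (N.con u w h.1)).1 h.2.1

end Pool.Agent.SGP.H17
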